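import Mathlib
import Pool.Agent.X48.Hadamard

/-!
For every `r ≥ 3` there are arbitrarily large normalized Hadamard matrices such that the columns,
after deleting the first `r` rows, do not form a diametrically maximal set.
-/

namespace Pool.Agent.Results.MP_1efffb_co.NotMaximal

open Pool.Agent.X48.Hadamard

theorem result : ∀ r : ℕ, 3 ≤ r → ∀ n0 : ℕ, ∃ m : ℕ, n0 ≤ r + m ∧
    ∃ H : Matrix (Fin (r + m)) (Fin (r + m)) ℤ, IsHadamard H ∧ IsNormalized H ∧
      ¬ DiamMax (colSet (r := r) (m := m) H) :=
  fun _ hr n0 => main hr n0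

end Pool.Agent.Results.MP_1efffb_co.NotMaximal
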